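import Mathlib

set_option autoImplicit false
open Cardinal Set Function Filter Topology MeasureTheory
open scoped ENNReal

namespace Pool.Agent.H.MP_360872_lc

abbrev O : Type := (𝔠 : Cardinal.{0}).ord.ToType

lemma hO : #O = 𝔠 := mk_ord_toType _

lemma hIic (a : O) : #(Iic a) < 𝔠 :=
  (mk_Iic_lt a (by simp [O]) (hO ▸ aleph0_le_continuum)).trans_eq hO

lemma hIio (a : O) : #(Iio a) < 𝔠 :=
  (mk_le_mk_of_subset Iio_subset_Iic_self).trans_lt (hIic a)

lemma small_iUnion {α ι : Type} [Countable ι] (B : ι → Set α) (h : ∀ i, #(B i) < 𝔠) :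
    #(⋃ i, B i) < 𝔠 := by
  refine (mk_iUnion_le _).trans_lt (mul_lt_of_lt aleph0_le_continuum
    (mk_le_aleph0.trans_lt aleph0_lt_continuum) (iSup_lt_of_lt_cof_ord ?_ h))
  exact mk_le_aleph0.trans_lt (lt_cof_ord_power le_rfl (by norm_num : (1 : Cardinal.{0}) < 2))

lemma rec_choice {α β : Type} [LinearOrder α] [WellFoundedLT α]
    (P : ∀ a : α, (Iio a → β) → β → Prop) (h : ∀ a f, ∃ b, P a f b) :
    ∃ d : α → β, ∀ a, P a (fun x => d x) (d a) := by
  choose F hF using h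
  let d : α → β := (wellFounded_lt (α := α)).fix fun a prev => F a fun x => prev x.1 x.2
  have hd : ∀ a, d a = F a fun x => d x := fun a => WellFounded.fix_eq _ _ a
  exact ⟨d, fun a => by rw [hd a]; exact hF a _⟩

abbrev Task : Type := Σ N : ℕ, {K : Set (Fin (N + 1) → ℝ) // IsClosed K}

lemma card_task : #Task ≤ 𝔠 := by
  rw [mk_sigma]
  refine (sum_le_sum _ (fun _ => 𝔠) fun N => ?_).trans (by simp)
  have h := MeasurableSpace.cardinal_measurableSet_le_continuum
    (s := MeasurableSpace.countableGeneratingSet (Fin (N + 1) → ℝ))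
    (MeasurableSpace.countable_countableGeneratingSet.le_aleph0.trans aleph0_le_continuum)
  rw [MeasurableSpace.generateFrom_countableGeneratingSet] at h
  exact (mk_le_mk_of_subset (s := {K : Set (Fin (N + 1) → ℝ) | IsClosed K})
    fun K hK => IsClosed.measurableSet hK).trans h

def sec {N : ℕ} (K : Set (Fin (N + 1) → ℝ)) (i : Fin (N + 1)) (r : Fin N → ℝ) : Set ℝ :=
  {u | (i.insertNth u r : Fin (N + 1) → ℝ) ∈ K}

lemma cont_ins {N : ℕ} (i : Fin (N + 1)) :
    Continuous fun z : (Fin N → ℝ) × ℝ => (i.insertNth z.2 z.1 : Fin (N + 1) → ℝ) :=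
  Continuous.finInsertNth (A := fun _ => ℝ) i continuous_snd continuous_fst

lemma sec_closed {N : ℕ} {K : Set (Fin (N + 1) → ℝ)} (hK : IsClosed K) (i : Fin (N + 1))
    (r : Fin N → ℝ) : IsClosed (sec K i r) :=
  hK.preimage ((cont_ins i).comp (Continuous.prodMk_right r))

lemma big_closed {N : ℕ} {K : Set (Fin (N + 1) → ℝ)} (hK : IsClosed K) (i : Fin (N + 1))
    (I : Set ℝ) (hI : IsCompact I) (c : ℝ≥0∞) : IsClosed {r | c ≤ volume (sec K i r ∩ I)} := by
  rw [← isOpen_compl_iff, isOpen_iff_mem_nhds]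
  intro r hr
  simp only [mem_compl_iff, mem_ofPred_eq, not_le] at hr
  obtain ⟨U, h1, h2, h3⟩ := Set.exists_isOpen_lt_of_lt _ _ hr
  have := (hI.diff h2).eventually_forall_of_forall_eventually (x₀ := r)
    (P := fun r u => (i.insertNth u r : Fin (N + 1) → ℝ) ∉ K) fun u hu =>
      ((cont_ins i).continuousAt (x := (r, u))).preimage_mem_nhds (hK.isOpen_compl.mem_nhds
        fun h : u ∈ sec K i r => hu.2 (h1 ⟨h, hu.1⟩))
  filter_upwards [this] with r' h
  simp only [mem_compl_iff, mem_ofPred_eq, not_le]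
  refine (measure_mono fun u hu => ?_).trans_lt h3
  by_contra hn
  exact h u ⟨hu.2, hn⟩ hu.1

lemma big_null {N : ℕ} {K : Set (Fin (N + 1) → ℝ)} (hK : volume K = 0) (i : Fin (N + 1)) :
    volume {r | volume (sec K i r) ≠ 0} = 0 := by
  have h1 := ((volume_preserving_piFinSuccAbove (fun _ : Fin (N + 1) => ℝ) i).symm).comp
    (Measure.measurePreserving_swap (μ := (volume : Measure (Fin N → ℝ))) (ν := (volume : Measure ℝ)))
  have h2 := Measure.measure_ae_null_of_prod_null (h1.quasiMeasurePreserving.preimage_null hK)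
  exact h2

def Cov : Prop := ∀ S : Set (Set ℝ), #S < 𝔠 → (∀ K ∈ S, IsClosed K ∧ volume K = 0) → ⋃₀ S ≠ Set.univ

theorem gen (hc : Cov) : ∃ x : O → ℝ, ∀ (N : ℕ) (K : Set (Fin N → ℝ)), IsClosed K → volume K = 0 →
    ∃ B : Set O, #B < 𝔠 ∧ ∀ γ : Fin N → O, Injective γ → (∀ i, γ i ∉ B) → x ∘ γ ∉ K := by
  obtain ⟨ι⟩ := (Cardinal.le_def Task O).1 (card_task.trans hO.ge)
  obtain ⟨x, hx⟩ := rec_choice (α := O) (β := ℝ) (fun g prev y => ∀ t : Task, ι t < g →
      ∀ (i : Fin (t.1 + 1)) (δ : Fin t.1 → Iio g), volume (sec t.2.1 i (prev ∘ δ)) = 0 →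
        y ∉ sec t.2.1 i (prev ∘ δ)) fun g prev => by
    let f : (Σ t : {t : Task | ι t < g}, Fin (t.1.1 + 1) × (Fin t.1.1 → Iio g)) → Set ℝ :=
      fun u => sec u.1.1.2.1 u.2.1 (prev ∘ u.2.2)
    have h1 : #(range f) < 𝔠 := by
      refine mk_range_le.trans_lt ?_
      rw [mk_sigma]
      refine (sum_le_sum _ (fun _ => ℵ₀ * max #(Iio g) ℵ₀) fun t => ?_).trans_lt ?_
      · rw [mk_prod, lift_id, lift_id]
        exact mul_le_mul' mk_le_aleph0 (by simpa using power_nat_le_max)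
      · rw [sum_const']
        refine mul_lt_of_lt aleph0_le_continuum ?_ (mul_lt_of_lt aleph0_le_continuum
          aleph0_lt_continuum (max_lt (hIio g) aleph0_lt_continuum))
        exact (mk_le_of_injective (f := fun t => (⟨ι t.1, t.2⟩ : Iio g))
          fun a b e => Subtype.ext (ι.injective (congrArg Subtype.val e))).trans_lt (hIio g)
    have h2 := hc {K ∈ range f | volume K = 0}
      ((mk_le_mk_of_subset (sep_subset _ _)).trans_lt h1)
      (by rintro K ⟨⟨u, rfl⟩, h⟩; exact ⟨sec_closed u.1.1.2.2 _ _, h⟩)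
    obtain ⟨y, hy⟩ := (ne_univ_iff_exists_notMem _).1 h2
    exact ⟨y, fun t ht i δ h h' => hy ⟨_, ⟨⟨⟨⟨t, ht⟩, i, δ⟩, rfl⟩, h⟩, h'⟩⟩
  refine ⟨x, fun N => ?_⟩
  induction N with
  | zero =>
    refine fun K _ h => ⟨∅, by simpa using continuum_pos, fun γ _ _ hm => ?_⟩
    have : K = Set.univ := eq_univ_of_forall fun z => by rwa [Subsingleton.elim z (x ∘ γ)]
    rw [this, volume_pi, Measure.pi_univ] at h
    simp at h
  | succ N ih =>
    intro K hK h0
    choose B hB1 hB2 using fun p : Fin (N + 1) × ℕ × ℕ => ih _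
      (big_closed hK p.1 (Icc (-(p.2.1 : ℝ)) p.2.1) isCompact_Icc ((p.2.2 : ℝ≥0∞)⁻¹))
      (measure_mono_null (t := {r | volume (sec K p.1 r) ≠ 0}) (fun r hr (h : _ = _) => by
        have : ((p.2.2 : ℝ≥0∞)⁻¹) ≤ 0 := hr.trans ((measure_mono inter_subset_left).trans h.le)
        simp at this) (big_null h0 p.1))
    refine ⟨Iic (ι ⟨N, K, hK⟩) ∪ ⋃ p, B p, (mk_union_le _ _).trans_lt
      (add_lt_of_lt aleph0_le_continuum (hIic _) (small_iUnion _ hB1)), fun γ h1 h2 hm => ?_⟩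
    simp only [mem_union, mem_Iic, mem_iUnion, not_or, not_le, not_exists] at h2
    obtain ⟨i, hi⟩ := Finite.exists_max γ
    have hlt : ∀ j : Fin N, γ (i.succAbove j) < γ i := fun j =>
      lt_of_le_of_ne (hi _) fun e => Fin.succAbove_ne i j (h1 e)
    have hs : volume (sec K i (x ∘ γ ∘ i.succAbove)) = 0 := by
      have hk : ∀ k : ℕ, volume (sec K i (x ∘ γ ∘ i.succAbove) ∩ Icc (-(k : ℝ)) k) = 0 := by
        intro k
        by_contra hn
        obtain ⟨l, hl⟩ := ENNReal.exists_inv_nat_lt hn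
        exact hB2 (i, k, l) (γ ∘ i.succAbove) (h1.comp Fin.succAbove_right_injective)
          (fun j => (h2 _).2 _) hl.le
      refine measure_mono_null (fun u hu => ?_) (measure_iUnion_null hk)
      obtain ⟨k, hk⟩ := exists_nat_ge |u|
      exact mem_iUnion.2 ⟨k, hu, abs_le.1 hk⟩
    refine hx (γ i) ⟨N, K, hK⟩ (h2 i).1 i (fun j => ⟨_, hlt j⟩) hs ?_
    have := Fin.insertNth_self_removeNth i (x ∘ γ)
    exact (congrArg (· ∈ K) this).mpr hm

end Pool.Agent.H.MP_360872_lc
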