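import Pool.Agent.H.MP_360872_lc.A

set_option autoImplicit false
open Cardinal Set Function Filter Topology MeasureTheory
open scoped ENNReal Pointwise

namespace Pool.Agent.H.MP_360872_lc

noncomputable def wL (n : ℕ) : Option (Fin n) → ((Fin n → ℝ) →ₗ[ℝ] ℝ)
  | some j => LinearMap.proj j
  | none => ∑ j, LinearMap.proj j

lemma wL_some {n : ℕ} (j : Fin n) (y : Fin n → ℝ) : wL n (some j) y = y j := rfl

lemma wL_none {n : ℕ} (y : Fin n → ℝ) : wL n none y = ∑ j, y j := by
  simp [wL, LinearMap.sum_apply]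

lemma wL_solve {n : ℕ} (z : Option (Fin n) → ℝ) (j0 : Option (Fin n)) :
    ∃ y : Fin n → ℝ, ∀ j, j ≠ j0 → wL n j y = z j := by
  cases j0 with
  | none =>
    refine ⟨fun j => z (some j), fun j hj => ?_⟩
    cases j with
    | none => exact absurd rfl hj
    | some j => rfl
  | some a =>
    refine ⟨fun j => if j = a then z none - ∑ i ∈ Finset.univ.erase a, z (some i) else z (some j),
      fun j hj => ?_⟩
    cases j with
    | none =>
      rw [wL_none, ← Finset.add_sum_erase _ _ (Finset.mem_univ a), if_pos rfl,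
        Finset.sum_congr rfl fun i hi => if_neg (Finset.ne_of_mem_erase hi)]
      ring
    | some j => rw [wL_some, if_neg fun e => hj (congrArg some e)]

noncomputable def LL {n m k : ℕ} (q : Fin m → Fin k × Option (Fin n)) :
    (Fin (k * n) → ℝ) →ₗ[ℝ] (Fin m → ℝ) :=
  LinearMap.pi fun i => (wL n (q i).2) ∘ₗ
    LinearMap.funLeft ℝ ℝ fun j => finProdFinEquiv ((q i).1, j)

lemma LL_apply {n m k : ℕ} (q : Fin m → Fin k × Option (Fin n)) (y : Fin (k * n) → ℝ) (i : Fin m) :
    LL q y i = wL n (q i).2 fun j => y (finProdFinEquiv ((q i).1, j)) := rfl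

lemma LL_surj {n m k : ℕ} (hm : m ≤ n) (q : Fin m → Fin k × Option (Fin n)) (hq : Injective q) :
    Surjective (LL q) := by
  intro z
  have h1 : ∀ c : Fin k, ∃ j0 : Option (Fin n), ∀ i, q i ≠ (c, j0) := by
    intro c
    by_contra! h
    choose g hg using h
    have : Injective g := fun a b e => by
      have := (hg a).symm.trans (e ▸ hg b)
      exact (Prod.ext_iff.1 this).2
    have := Fintype.card_le_of_injective g this
    simp at this
    omega
  choose j0 hj using h1
  choose y hy using fun c : Fin k => wL_solve (fun j => extend q z 0 (c, j)) (j0 c)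
  refine ⟨fun a => y (finProdFinEquiv.symm a).1 (finProdFinEquiv.symm a).2, funext fun i => ?_⟩
  rw [LL_apply]
  simp only [Equiv.symm_apply_apply]
  rw [hy (q i).1 (q i).2 fun e => hj (q i).1 i (by rw [← e])]
  exact hq.extend_apply _ _ _

theorem blocks (hc : Cov) (n : ℕ) : ∃ x : O → Fin n → ℝ, ∀ m ≤ n, ∀ K : Set (Fin m → ℝ),
    IsClosed K → volume K = 0 → ∃ B : Set O, #B < 𝔠 ∧ ∀ p : Fin m → O × Option (Fin n),
      Injective p → (∀ i, (p i).1 ∉ B) → (fun i => wL n (p i).2 (x (p i).1)) ∉ K := by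
  obtain ⟨x, hx⟩ := gen hc
  obtain ⟨e⟩ := (Cardinal.le_def (O × Fin n) O).1 (by
    rw [mk_prod, lift_id, lift_id, hO]
    exact (mul_le_mul' le_rfl (mk_le_aleph0.trans aleph0_le_continuum)).trans (by simp))
  refine ⟨fun a j => x (e (a, j)), fun m hm K hK h0 => ?_⟩
  have key : ∀ u : Σ k : ℕ, {q : Fin m → Fin k × Option (Fin n) // Injective q},
      ∃ B : Set O, #B < 𝔠 ∧ ∀ γ : Fin (u.1 * n) → O, Injective γ → (∀ i, γ i ∉ B) →
        x ∘ γ ∉ LL u.2.1 ⁻¹' K := by
    intro u
    refine hx _ _ (hK.preimage (LL u.2.1).continuous_of_finiteDimensional) ?_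
    have := (ae_comp_linearMap_mem_iff (LL u.2.1) volume volume (LL_surj hm _ u.2.2)
      hK.measurableSet.compl).2 (compl_mem_ae_iff.2 h0)
    exact compl_mem_ae_iff.1 this
  choose B hB1 hB2 using key
  refine ⟨Prod.fst '' (e ⁻¹' ⋃ u, B u), mk_image_le.trans_lt
    ((mk_preimage_of_injective _ _ e.injective).trans_lt (small_iUnion _ hB1)), fun p h1 h2 hm => ?_⟩
  classical
  let s : Finset O := Finset.univ.image fun i => (p i).1
  have hs : ∀ i, (p i).1 ∈ s := fun i => Finset.mem_image_of_mem _ (Finset.mem_univ i)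
  let q : Fin m → Fin s.card × Option (Fin n) := fun i => (s.equivFin ⟨_, hs i⟩, (p i).2)
  have hq : Injective q := fun a b h => h1 (Prod.ext
    (congrArg Subtype.val (s.equivFin.injective (Prod.ext_iff.1 h).1)) (Prod.ext_iff.1 h).2)
  refine hB2 ⟨_, q, hq⟩ (fun a => e ((s.equivFin.symm (finProdFinEquiv.symm a).1).1,
    (finProdFinEquiv.symm a).2)) (fun a b h => ?_) (fun a h => ?_) ?_
  · have := Prod.ext_iff.1 (e.injective h)
    exact finProdFinEquiv.symm.injective (Prod.ext
      (s.equivFin.symm.injective (Subtype.ext this.1)) this.2)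
  · obtain ⟨i, -, hi⟩ := Finset.mem_image.1 (s.equivFin.symm (finProdFinEquiv.symm a).1).2
    exact h2 i ⟨(_, (finProdFinEquiv.symm a).2), mem_iUnion.2 ⟨_, h⟩, hi.symm⟩
  · convert hm using 1
    rw [mem_preimage]
    congr! 1
    funext i
    simp only [LL_apply, q, comp_apply, Equiv.symm_apply_apply]

lemma orth {n : ℕ} (F : Set (Fin n → ℝ)) (h : volume (closure F) ≠ 0) (t : Fin n → Prop) :
    ∃ a ∈ F, ∃ b ∈ F, ∀ i, (t i → a i < b i) ∧ (¬ t i → b i < a i) := by
  classical
  have h1 := Measure.sub_mem_nhds_zero_of_addHaar_pos volume (closure F)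
    isClosed_closure.measurableSet (pos_iff_ne_zero.2 h)
  obtain ⟨ε, hε, h2⟩ := Metric.mem_nhds_iff.1 h1
  obtain ⟨a, ha, b, hb, e⟩ := h2 (a := fun i => if t i then -(ε / 2) else ε / 2) (by
    rw [mem_ball_zero_iff, pi_norm_lt_iff hε]
    intro i
    split_ifs <;> simp [abs_of_pos hε, hε])
  obtain ⟨a', h3, h4⟩ := Metric.mem_closure_iff.1 ha (ε / 4) (by positivity)
  obtain ⟨b', h5, h6⟩ := Metric.mem_closure_iff.1 hb (ε / 4) (by positivity)
  refine ⟨a', h3, b', h5, fun i => ?_⟩
  have e1 := congrFun e i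
  have e2 := abs_lt.1 ((dist_le_pi_dist a a' i).trans_lt h4)
  have e3 := abs_lt.1 ((dist_le_pi_dist b b' i).trans_lt h6)
  simp only [Pi.sub_apply] at e1
  constructor
  · intro h; rw [if_pos h] at e1; linarith [e2.1, e2.2, e3.1, e3.2]
  · intro h; rw [if_neg h] at e1; linarith [e2.1, e2.2, e3.1, e3.2]

def Ent (κ : Cardinal) (n : ℕ) (E : Set ℝ) : Prop :=
  ∀ F : Set (Fin n → ℝ), #F = κ → (∀ a ∈ F, Injective a ∧ ∀ i, a i ∈ E) →
    (F.Pairwise fun a b => ∀ i j, a i ≠ b j) →
    ∀ t : Fin n → Fin 2, ∃ a ∈ F, ∃ b ∈ F, a ≠ b ∧ ∀ i, (t i = 0 ↔ a i < b i)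

theorem main (hc : Cov) (n : ℕ) (hn : 1 < n) : ∃ E : Set ℝ, Ent 𝔠 n E ∧ ¬ Ent 𝔠 (n + 1) E := by
  obtain ⟨x, hx⟩ := blocks hc n
  let v : O × Option (Fin n) → ℝ := fun p => wL n p.2 (x p.1)
  refine ⟨range v, fun F h1 h2 h3 t => ?_, fun hE => ?_⟩
  · have h0 : volume (closure F) ≠ 0 := by
      intro h0
      obtain ⟨B, hB, hB2⟩ := hx n le_rfl _ isClosed_closure h0
      have h4 : ∀ a : F, ∃ p : O × Option (Fin n), p.1 ∈ B ∧ ∃ i, a.1 i = v p := by
        intro a
        choose p hp using (h2 a a.2).2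
        by_contra! hb
        refine hB2 p (fun i j e => (h2 a a.2).1 (by rw [← hp, ← hp, e]))
          (fun i h => hb _ h i (hp i).symm) ?_
        have : (fun i => wL n (p i).2 (x (p i).1)) = a.1 := funext hp
        rw [this]
        exact subset_closure a.2
      choose p hp i hi using h4
      have h5 : Injective fun a : F => ((⟨_, hp a⟩ : B), (p a).2) := by
        intro a b e
        have e' : p a = p b := Prod.ext (congrArg (fun z => z.1.1) e) (Prod.ext_iff.1 e).2
        by_contra hab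
        exact h3 a.2 b.2 (fun h => hab (Subtype.ext h)) (i a) (i b) (by rw [hi, hi, e'])
      have := mk_le_of_injective h5
      rw [h1, mk_prod, lift_id, lift_id] at this
      exact (mul_lt_of_lt aleph0_le_continuum hB
        (mk_le_aleph0.trans_lt aleph0_lt_continuum)).not_ge this
    obtain ⟨a, ha, b, hb, h⟩ := orth F h0 fun i => t i = 0
    refine ⟨a, ha, b, hb, fun e => ?_, fun i => ⟨(h i).1, fun h' => ?_⟩⟩
    · have := h ⟨0, by omega⟩
      rw [e] at this
      simp at this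
    · by_contra hn
      exact ((h i).2 hn).not_gt h'
  · have hD : volume {z : Fin 2 → ℝ | z 0 = z 1} = 0 := by
      refine Measure.addHaar_submodule volume (LinearMap.eqLocus (LinearMap.proj (R := ℝ)
        (φ := fun _ : Fin 2 => ℝ) 0) (LinearMap.proj 1)) fun h => ?_
      have := h.ge (Submodule.mem_top (x := ![0, 1]))
      simp at this
    obtain ⟨B, hB, hB2⟩ := hx 2 hn _ (isClosed_eq (continuous_apply 0) (continuous_apply 1)) hD
    have hv : ∀ p q : O × Option (Fin n), p.1 ∉ B → q.1 ∉ B → v p = v q → p = q := by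
      intro p q h1 h2 e
      by_contra hne
      refine hB2 ![p, q] ?_ ?_ e
      · intro i j
        fin_cases i <;> fin_cases j <;> simp [hne, Ne.symm hne]
      · intro i
        fin_cases i <;> simpa
    have : Infinite O := infinite_iff.2 (hO ▸ aleph0_le_continuum)
    let g : O → Fin (n + 1) → ℝ := fun β i => v (β, finSuccEquiv n i)
    have hg : InjOn g Bᶜ := fun a ha b hb e =>
      (Prod.ext_iff.1 (hv (a, _) (b, _) ha hb (congrFun e 0))).1
    obtain ⟨_, ⟨a, ha, rfl⟩, _, ⟨b, hb, rfl⟩, -, h⟩ := hE (g '' Bᶜ)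
      (by rw [mk_image_eq_of_injOn _ _ hg, mk_compl_of_infinite _ (hO ▸ hB), hO])
      (by
        rintro _ ⟨a, ha, rfl⟩
        exact ⟨fun i j e => (finSuccEquiv n).injective
          (Prod.ext_iff.1 (hv (a, _) (a, _) ha ha e)).2, fun i => ⟨_, rfl⟩⟩)
      (by
        rintro _ ⟨a, ha, rfl⟩ _ ⟨b, hb, rfl⟩ hne i j e
        exact hne (congrArg g (Prod.ext_iff.1 (hv (a, _) (b, _) ha hb e)).1))
      fun i => if i = 0 then 1 else 0
    have h1 : ∀ j : Fin n, x a j < x b j := fun j => by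
      simpa [g, v, wL_some] using (h j.succ).1 (if_neg (Fin.succ_ne_zero j))
    have h2 : g a 0 < g b 0 := by
      simp only [g, v, finSuccEquiv_zero, wL_none]
      exact Finset.sum_lt_sum_of_nonempty ⟨⟨0, by omega⟩, Finset.mem_univ _⟩ fun j _ => h1 j
    simpa using (h 0).2 h2

end Pool.Agent.H.MP_360872_lc
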